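import Mathlib

namespace Pool.Agent.P.MP_5c258a_lc

/-- `LO_{z,σ}(x)`: the largest `i ≤ n` such that `x` and `z` agree at the first `i` positions in
the order `σ`. -/
def LO {n : ℕ} (z : Fin n → Bool) (σ : Equiv.Perm (Fin n)) (x : Fin n → Bool) : ℕ :=
  Nat.findGreatest (fun i => ∀ j : Fin n, j.val < i → x (σ j) = z (σ j)) n

/-- An `a`-ary unbiased variation operator on bit strings of length `n`. -/
structure Op (n a : ℕ) where
  p : (Fin a → Fin n → Bool) → (Fin n → Bool) → ℝ
  nonneg : ∀ x y, 0 ≤ p x y
  sum_one : ∀ x, ∑ y, p x y = 1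
  xor_inv : ∀ (w : Fin n → Bool) x y,
    p (fun i j => xor (x i j) (w j)) (fun j => xor (y j) (w j)) = p x y
  perm_inv : ∀ (π : Equiv.Perm (Fin n)) x y, p (fun i j => x i (π j)) (fun j => y (π j)) = p x y

/-- An `a`-ary unbiased black-box algorithm with memory `k`. All choices depend only on the list
`h` of fitness values seen so far: `op h` is the operator, `par h` gives the numbers of the
earlier queries it is applied to, and `mem h` is the set of numbers of the queries still stored. -/
structure Alg (n a k : ℕ) where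
  op : List ℕ → Op n a
  par : List ℕ → Fin a → ℕ
  mem : List ℕ → Finset ℕ
  par_mem : ∀ h i, h ≠ [] → par h i ∈ mem h
  mem_lt : ∀ h, ∀ s ∈ mem h, s < h.length
  mem_card : ∀ h, (mem h).card ≤ k
  mem_step : ∀ h v, mem (h ++ [v]) ⊆ insert h.length (mem h)

/-- The probability that the query after the queries `xs` is `y`. -/
noncomputable def step {n a k : ℕ} (A : Alg n a k) (f : (Fin n → Bool) → ℕ)
    (xs : List (Fin n → Bool)) (y : Fin n → Bool) : ℝ :=
  if xs = [] then 1 / 2 ^ n
  else (A.op (xs.map f)).p (fun i => xs.getD (A.par (xs.map f) i) fun _ => false) y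

open Classical in
/-- The probability that none of the `t` queries after the queries `xs` maximises `f`. -/
noncomputable def miss {n a k : ℕ} (A : Alg n a k) (f : (Fin n → Bool) → ℕ) :
    ℕ → List (Fin n → Bool) → ℝ
  | 0, _ => 1
  | t + 1, xs => ∑ y, step A f xs y * if ∀ x, f x ≤ f y then 0 else miss A f t (xs ++ [y])

/-- The expected number of queries until a maximiser is queried: the sum of `P(T > t)`. -/
noncomputable def expTime {n a k : ℕ} (A : Alg n a k) (f : (Fin n → Bool) → ℕ) : ENNReal :=
  ∑' t : ℕ, ENNReal.ofReal (miss A f t [])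

end Pool.Agent.P.MP_5c258a_lc
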