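import Mathlib

namespace Pool.Agent.P.MP_5c258a_lc

open Finset

variable {X : Type} [Fintype X]

/-- Forward expectation after `t` more steps of the chain with kernel `st`. -/
noncomputable def Ex (st : List X → X → ℝ) : ℕ → List X → (List X → ℝ) →ₗ[ℝ] ℝ
  | 0, xs => LinearMap.proj xs
  | t + 1, xs => ∑ y, st xs y • Ex st t (xs ++ [y])

variable {st : List X → X → ℝ}

@[simp] lemma Ex_zero (xs : List X) (φ : List X → ℝ) : Ex st 0 xs φ = φ xs := rfl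

lemma Ex_succ (t : ℕ) (xs : List X) (φ : List X → ℝ) :
    Ex st (t + 1) xs φ = ∑ y, st xs y * Ex st t (xs ++ [y]) φ := by
  simp [Ex, LinearMap.sum_apply]

lemma Ex_mono' (h0 : ∀ xs y, 0 ≤ st xs y) : ∀ (t : ℕ) (xs : List X) (φ ψ : List X → ℝ),
    (∀ zs : List X, zs.length = t → φ (xs ++ zs) ≤ ψ (xs ++ zs)) → Ex st t xs φ ≤ Ex st t xs ψ
  | 0, xs, φ, ψ, h => by simpa using h [] rfl
  | t + 1, xs, φ, ψ, h => by
    rw [Ex_succ, Ex_succ]
    refine sum_le_sum fun y _ => mul_le_mul_of_nonneg_left ?_ (h0 _ _)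
    refine Ex_mono' h0 t _ φ ψ fun zs hz => ?_
    simpa using h (y :: zs) (by simp [hz])

lemma Ex_mono (h0 : ∀ xs y, 0 ≤ st xs y) (t : ℕ) (xs : List X) (φ ψ : List X → ℝ)
    (h : ∀ zs, φ zs ≤ ψ zs) : Ex st t xs φ ≤ Ex st t xs ψ :=
  Ex_mono' h0 t xs φ ψ fun _ _ => h _

lemma Ex_frozen (h1 : ∀ xs, ∑ y, st xs y = 1) : ∀ (t : ℕ) (xs : List X) (φ : List X → ℝ) (c : ℝ),
    (∀ zs : List X, φ (xs ++ zs) = c) → Ex st t xs φ = c
  | 0, xs, φ, c, h => by simpa using h []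
  | t + 1, xs, φ, c, h => by
    rw [Ex_succ]
    have : ∀ y, Ex st t (xs ++ [y]) φ = c := fun y =>
      Ex_frozen h1 t _ φ c fun zs => by simpa using h (y :: zs)
    simp only [this]
    rw [← sum_mul, h1, one_mul]

lemma Ex_const (h1 : ∀ xs, ∑ y, st xs y = 1) (t : ℕ) (xs : List X) (c : ℝ) :
    Ex st t xs (fun _ => c) = c := Ex_frozen h1 t xs _ c fun _ => rfl

lemma Ex_super (h0 : ∀ xs y, 0 ≤ st xs y) (D : List X → ℝ)
    (hD : ∀ xs, ∑ y, st xs y * D (xs ++ [y]) ≤ D xs) :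
    ∀ (t : ℕ) (xs : List X), Ex st t xs D ≤ D xs
  | 0, xs => le_rfl
  | t + 1, xs => by
    rw [Ex_succ]
    exact le_trans (sum_le_sum fun y _ =>
      mul_le_mul_of_nonneg_left (Ex_super h0 D hD t _) (h0 _ _)) (hD xs)

lemma Ex_couple (h1 : ∀ xs, ∑ y, st xs y = 1) (f : X → ℕ) (τ : X → X)
    (hτ : Function.Involutive τ)
    (hst : ∀ xs y, (∀ l ∈ xs, f (τ l) = f l) → st (xs.map τ) (τ y) = st xs y)
    (ψ : List X → ℝ) (hψ : ∀ ls, (∃ l ∈ ls, f (τ l) ≠ f l) → ∀ zs, ψ (ls ++ zs) = ψ ls) :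
    ∀ (t : ℕ) (xs : List X), Ex st t xs (fun zs => ψ (zs.map τ)) = Ex st t (xs.map τ) ψ
  | 0, xs => rfl
  | t + 1, xs => by
    by_cases h : ∀ l ∈ xs, f (τ l) = f l
    · rw [Ex_succ, Ex_succ, ← Equiv.sum_comp hτ.toPerm
        (fun y => st (xs.map τ) y * Ex st t (xs.map τ ++ [y]) ψ)]
      refine sum_congr rfl fun y _ => ?_
      rw [Ex_couple h1 f τ hτ hst ψ hψ t (xs ++ [y])]
      simp [hst xs y h]
    · push Not at h
      obtain ⟨l, hl, hne⟩ := h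
      have hfr := hψ (xs.map τ) ⟨τ l, List.mem_map_of_mem hl, by rw [hτ l]; exact hne.symm⟩
      rw [Ex_frozen h1 _ _ ψ _ hfr]
      exact Ex_frozen h1 _ _ _ _ fun zs => by rw [List.map_append, hfr]

end Pool.Agent.P.MP_5c258a_lc
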