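import Pool.Agent.P.MP_5c258a_lc.Defs
import Pool.Agent.P.MP_5c258a_lc.Exp

namespace Pool.Agent.P.MP_5c258a_lc

open Finset

variable {n a k : ℕ}

/-- The classical LeadingOnes function. -/
def f0 (x : Fin n → Bool) : ℕ := LO (fun _ => true) 1 x

lemma f0_le (x : Fin n → Bool) : f0 x ≤ n := Nat.findGreatest_le n

lemma le_f0 {i : ℕ} (hi : i ≤ n) (x : Fin n → Bool) :
    i ≤ f0 x ↔ ∀ j : Fin n, j.val < i → x j = true := by
  constructor
  · intro h j hj
    have := Nat.findGreatest_spec (P := fun i => ∀ j : Fin n, j.val < i → x ((1 : Equiv.Perm (Fin n)) j) = true)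
      (Nat.zero_le n) (by intro j hj; omega)
    exact this j (lt_of_lt_of_le hj h)
  · intro h
    exact Nat.le_findGreatest hi h

lemma f0_true {i : ℕ} {x : Fin n → Bool} (h : i ≤ f0 x) (j : Fin n) (hj : j.val < i) :
    x j = true := (le_f0 (h.trans (f0_le x)) x).1 h j hj

lemma le_f0_congr {i : ℕ} {x x' : Fin n → Bool} (h : ∀ j : Fin n, j.val < i → x' j = x j) :
    i ≤ f0 x' ↔ i ≤ f0 x := by
  by_cases hi : i ≤ n
  · rw [le_f0 hi, le_f0 hi]
    exact forall_congr' fun j => forall_congr' fun hj => by rw [h j hj]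
  · have := f0_le x
    have := f0_le x'
    omega

lemma f0_congr {i : ℕ} {x x' : Fin n → Bool} (h : ∀ j : Fin n, j.val < i → x' j = x j)
    (hx : f0 x < i) : f0 x' = f0 x := by
  have h1 := (le_f0_congr (i := f0 x) (x := x) (x' := x') fun j hj => h j (by omega)).2 le_rfl
  have h2 := (le_f0_congr (i := f0 x + 1) (x := x) (x' := x') fun j hj => h j (by omega))
  omega

lemma succ_le_f0 {i : Fin n} {x : Fin n → Bool} (h : i.val ≤ f0 x) (hx : x i = true) :
    i.val + 1 ≤ f0 x := by
  rw [le_f0 i.2]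
  intro j hj
  rcases Nat.lt_succ_iff_lt_or_eq.1 hj with h' | h'
  · exact f0_true h j h'
  · rw [Fin.ext h']; exact hx

/-- A symmetry of the cube. -/
def sp (π : Equiv.Perm (Fin n)) (w x : Fin n → Bool) : Fin n → Bool := fun j => xor (x (π j)) (w j)

lemma op_sp (O : Op n a) (π : Equiv.Perm (Fin n)) (w : Fin n → Bool) (x : Fin a → Fin n → Bool)
    (y : Fin n → Bool) : O.p (fun i => sp π w (x i)) (sp π w y) = O.p x y := by
  have := O.xor_inv w (fun i j => x i (π j)) (fun j => y (π j))
  rw [O.perm_inv] at this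
  exact this

lemma sp_bijective (π : Equiv.Perm (Fin n)) (w : Fin n → Bool) : Function.Bijective (sp π w) := by
  refine Finite.injective_iff_bijective.1 fun x y h => ?_
  funext j
  have := congrFun h (π.symm j)
  simpa [sp] using this

lemma step_nonneg (A : Alg n a k) (f : (Fin n → Bool) → ℕ) (xs : List (Fin n → Bool))
    (y : Fin n → Bool) : 0 ≤ step A f xs y := by
  unfold step
  split_ifs
  · positivity
  · exact Op.nonneg _ _ _

lemma step_sum (A : Alg n a k) (f : (Fin n → Bool) → ℕ) (xs : List (Fin n → Bool)) :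
    ∑ y, step A f xs y = 1 := by
  unfold step
  split_ifs
  · simp
  · exact Op.sum_one _ _

lemma par_lt (A : Alg n a k) (f : (Fin n → Bool) → ℕ) {xs : List (Fin n → Bool)} (h : xs ≠ [])
    (i : Fin a) : A.par (xs.map f) i < xs.length := by
  simpa using A.mem_lt _ _ (A.par_mem (xs.map f) i (by simpa using h))

lemma step_sp (A : Alg n a k) (f f' : (Fin n → Bool) → ℕ) (π : Equiv.Perm (Fin n))
    (w : Fin n → Bool) (xs : List (Fin n → Bool)) (y : Fin n → Bool)
    (h : ∀ l ∈ xs, f' (sp π w l) = f l) :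
    step A f' (xs.map (sp π w)) (sp π w y) = step A f xs y := by
  have hm : (xs.map (sp π w)).map f' = xs.map f := by
    rw [List.map_map]
    exact List.map_congr_left h
  unfold step
  by_cases hx : xs = []
  · simp [hx]
  · rw [if_neg hx, if_neg (by simpa using hx), hm, ← op_sp _ π w _ y]
    congr 1
    funext i
    have := par_lt A f hx i
    rw [List.getD_eq_getElem _ _ (by simpa using this), List.getD_eq_getElem _ _ this]
    simp

lemma step_fix (A : Alg n a k) (f : (Fin n → Bool) → ℕ) (π : Equiv.Perm (Fin n))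
    (w : Fin n → Bool) (xs : List (Fin n → Bool)) (y : Fin n → Bool)
    (h : ∀ s ∈ A.mem (xs.map f), ∀ l, xs[s]? = some l → sp π w l = l) :
    step A f xs (sp π w y) = step A f xs y := by
  unfold step
  by_cases hx : xs = []
  · simp [hx]
  · rw [if_neg hx, if_neg hx, ← op_sp _ π w _ y]
    congr 1
    funext i
    have := par_lt A f hx i
    rw [List.getD_eq_getElem _ _ this]
    exact (h _ (A.par_mem _ i (by simpa using hx)) _ (List.getElem?_eq_getElem this)).symm

lemma LO_eq (z : Fin n → Bool) (σ : Equiv.Perm (Fin n)) (x : Fin n → Bool) :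
    f0 (sp σ (fun j => !z (σ j)) x) = LO z σ x := by
  unfold f0 LO
  congr 1
  funext i
  refine propext (forall_congr' fun j => forall_congr' fun _ => ?_)
  simp only [sp, Equiv.Perm.coe_one, id]
  cases x (σ j) <;> cases z (σ j) <;> simp

lemma miss_eq (A : Alg n a k) (z : Fin n → Bool) (σ : Equiv.Perm (Fin n)) :
    ∀ (t : ℕ) (xs : List (Fin n → Bool)),
      miss A (LO z σ) t xs = miss A f0 t (xs.map (sp σ fun j => !z (σ j)))
  | 0, _ => rfl
  | t + 1, xs => by
    have hb := sp_bijective σ (fun j => !z (σ j))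
    simp only [miss]
    refine Eq.trans ?_ (hb.sum_comp _)
    refine sum_congr rfl fun y _ => ?_
    rw [step_sp A (LO z σ) f0 σ _ xs y fun l _ => LO_eq z σ l, miss_eq A z σ t]
    have : (∀ x, LO z σ x ≤ LO z σ y) ↔ ∀ x : Fin n → Bool, f0 x ≤ f0 (sp σ (fun j => !z (σ j)) y) := by
      symm
      rw [hb.2.forall]
      simp only [LO_eq]
    simp only [this, List.map_append, List.map_cons, List.map_nil]

/-- Some query has reached level `i`. -/
def hit (i : ℕ) (xs : List (Fin n → Bool)) : Prop := ∃ y ∈ xs, i ≤ f0 y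

@[simp] lemma hit_nil (i : ℕ) : ¬hit i ([] : List (Fin n → Bool)) := by simp [hit]

@[simp] lemma hit_cons (i : ℕ) (y : Fin n → Bool) (ys : List (Fin n → Bool)) :
    hit i (y :: ys) ↔ i ≤ f0 y ∨ hit i ys := by simp [hit]

@[simp] lemma hit_append (i : ℕ) (xs ys : List (Fin n → Bool)) :
    hit i (xs ++ ys) ↔ hit i xs ∨ hit i ys := by
  simp [hit, or_and_right, exists_or]

lemma hit_mono {i i' : ℕ} (h : i ≤ i') {xs : List (Fin n → Bool)} (hx : hit i' xs) : hit i xs := by
  obtain ⟨y, hy, hy'⟩ := hx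
  exact ⟨y, hy, h.trans hy'⟩

open Classical in
lemma miss_ge (A : Alg n a k) : ∀ (t : ℕ) (xs : List (Fin n → Bool)),
    1 - Ex (step A f0) t xs (fun zs => if hit n zs then 1 else 0) ≤ miss A f0 t xs
  | 0, xs => by
    simp only [miss, Ex_zero]
    split_ifs <;> simp
  | t + 1, xs => by
    rw [Ex_succ, miss]
    refine le_trans (le_of_eq ?_) (sum_le_sum (f := fun y => step A f0 xs y *
      (1 - Ex (step A f0) t (xs ++ [y]) (fun zs => if hit n zs then 1 else 0))) fun y _ => ?_)
    · simp only [mul_sub, sum_sub_distrib, mul_one, step_sum]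
    refine mul_le_mul_of_nonneg_left ?_ (step_nonneg _ _ _ _)
    split_ifs with h
    · have hy : n ≤ f0 y := le_trans ((le_f0 le_rfl fun _ => true).2 fun _ _ => rfl) (h _)
      rw [Ex_frozen (step_sum A f0) t _ _ 1 fun zs => by simp [hy]]
      simp
    · exact miss_ge A t _

end Pool.Agent.P.MP_5c258a_lc
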