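import Pool.Agent.P.MP_5c258a_lc.Win

namespace Pool.Agent.P.MP_5c258a_lc

open Finset Classical

variable {n a k : ℕ}

lemma card_Wn {w T : ℕ} (h : w + T ≤ n) : (Wn n w T).card = T := by
  rw [← card_map Fin.valEmbedding]
  have : (Wn n w T).map Fin.valEmbedding = Ico w (w + T) := by
    ext j
    simp only [Wn, mem_map, mem_filter, mem_univ, true_and, Fin.valEmbedding_apply, mem_Ico]
    exact ⟨fun ⟨i, hi, e⟩ => e ▸ hi, fun hj => ⟨⟨j, by omega⟩, hj, rfl⟩⟩
  rw [this]; simp

lemma card_Fn (m : ℕ) : (Fn n m).card = n - m := by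
  rw [← card_map Fin.valEmbedding]
  have : (Fn n m).map Fin.valEmbedding = Ico m n := by
    ext j
    simp only [Fn, mem_map, mem_filter, mem_univ, true_and, Fin.valEmbedding_apply, mem_Ico]
    exact ⟨fun ⟨i, hi, e⟩ => e ▸ ⟨hi, i.2⟩, fun hj => ⟨⟨j, hj.2⟩, hj.1, rfl⟩⟩
  rw [this]; simp

lemma gain_ge (A : Alg n a k) {m w T : ℕ} (hm : w + T ≤ n) (hT : 10 ≤ T)
    (hM : T * T ≤ (Fn n m).card) (xs : List (Fin n → Bool)) :
    T * Real.log (T / (Wn n w T ∪ Fn n m).card) - Ini A m w T xs +
      T * ((Real.log (T / 10) + 1) * ind (hit (w + T + T) xs) -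
        (T + ucnt (w + T) (w + T + T) (Fn n m) xs) / (10 * (Fn n m).card / T)) ≤
      ind (hit w xs) * (Phi A m w T (cut (w + T + T) xs) - Ini A m w T xs) := by
  have hT' : (10 : ℝ) ≤ T := by exact_mod_cast hT
  have hM' : (T : ℝ) * T ≤ (Fn n m).card := by exact_mod_cast hM
  have hU : ((Fn n m).card : ℝ) ≤ (Wn n w T ∪ Fn n m).card := by
    exact_mod_cast card_le_card subset_union_right
  have hX : 0 ≤ ucnt (w + T) (w + T + T) (Fn n m) xs := sum_nonneg fun _ _ => ind_nonneg _
  have hV : ∀ ys, (T : ℝ) ≤ (Vn m w T ys).card := fun ys => by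
    have : (Wn n w T).card ≤ (Vn m w T ys).card := card_le_card subset_union_left
    rw [card_Wn hm] at this
    exact_mod_cast this
  have hP : ∀ ys, T * Real.log (T / (Vn m w T ys).card) ≤ Phi A m w T ys := fun ys => by
    have := psi_lower (W := Wn n w T) (V := Vn m w T ys) subset_union_left
      (label m ys (A.mem (ys.map f0)))
    rwa [card_Wn hm] at this
  have hM0 : (0 : ℝ) < (Fn n m).card := by nlinarith
  have hq : 0 ≤ (T : ℝ) * ((T + ucnt (w + T) (w + T + T) (Fn n m) xs) / (10 * (Fn n m).card / T)) := by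
    positivity
  by_cases h2 : hit (w + T + T) xs
  · have h1 : hit w xs := hit_mono (by omega) h2
    have h3 : ((Vn m w T (cut (w + T + T) xs)).card : ℝ)
        ≤ T + ucnt (w + T) (w + T + T) (Fn n m) xs := by
      have h4 := card_union_le (Wn n w T) ((Fn n m).filter fun j =>
        ∀ y ∈ cut (w + T + T) xs, w + T ≤ f0 y → y j = false)
      rw [card_Wn hm, card_filter] at h4
      refine le_trans (b := ((_ : ℕ) : ℝ)) (by exact_mod_cast h4) ?_
      push_cast
      refine add_le_add le_rfl (sum_le_sum fun j _ => ?_)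
      split_ifs with h5
      · simp [ind, unc_of_cut h2 h5]
      · exact ind_nonneg _
    have h4 := hP (cut (w + T + T) xs)
    have h5 := hV (cut (w + T + T) xs)
    simp only [ind, h1, h2, if_true, one_mul, mul_one]
    generalize ucnt (w + T) (w + T + T) (Fn n m) xs = X at *
    generalize ((Vn m w T (cut (w + T + T) xs)).card : ℝ) = v at *
    generalize ((Wn n w T ∪ Fn n m).card : ℝ) = U at *
    generalize ((Fn n m).card : ℝ) = M at *
    have hT0 : (0 : ℝ) < T := by linarith
    have hv : 0 < v := by linarith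
    have hU0 : 0 < U := by linarith
    have h6 := Real.log_le_sub_one_of_pos (show 0 < (T + X) / (10 * M / T) by positivity)
    have h7 : Real.log (T / U) + Real.log (T / 10) ≤
        Real.log (T / v) + Real.log ((T + X) / (10 * M / T)) := by
      rw [← Real.log_mul (by positivity) (by positivity),
        ← Real.log_mul (by positivity) (by positivity)]
      refine Real.log_le_log (by positivity) ?_
      calc T / U * (T / 10) ≤ T / M * (T / 10) := by gcongr
        _ = T / v * (v / (10 * M / T)) := by field_simp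
        _ ≤ _ := by gcongr
    nlinarith
  by_cases h1 : hit w xs
  · have h3 : ((Vn m w T (cut (w + T + T) xs)).card : ℝ) ≤ (Wn n w T ∪ Fn n m).card := by
      exact_mod_cast card_le_card (union_subset_union_right (filter_subset _ _))
    have h4 := hP (cut (w + T + T) xs)
    have h5 := hV (cut (w + T + T) xs)
    have h6 : Real.log (T / (Wn n w T ∪ Fn n m).card)
        ≤ Real.log (T / (Vn m w T (cut (w + T + T) xs)).card) := by
      refine Real.log_le_log (div_pos (by linarith) (by linarith)) ?_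
      exact div_le_div_of_nonneg_left (by linarith) (by linarith) h3
    simp only [ind, h1, h2, if_true, if_false, one_mul, mul_zero]
    nlinarith
  · have h3 := psi_lower (W := Wn n w T) (V := Wn n w T ∪ Fn n m) subset_union_left
      (Lab A m (cut w xs))
    rw [card_Wn hm] at h3
    simp only [ind, h1, h2, if_false, zero_mul, mul_zero]
    unfold Ini
    nlinarith

lemma window (A : Alg n a k) {m w T : ℕ} (hm : w + T + T ≤ m) (hn : m ≤ n) (hT : 10 ≤ T)
    (hM : T * T ≤ (Fn n m).card) (N : ℕ)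
    (hq : 1 / 2 ≤ Ex (step A f0) N [] fun xs => ind (hit n xs)) :
    T / 2 * Real.log (T / 10) - 2 * 2 ^ k ≤
      2 * 2 ^ k * Ex (step A f0) N [] (steps w (w + T + T)) := by
  have hT' : (10 : ℝ) ≤ T := by exact_mod_cast hT
  have hM' : (T : ℝ) * T ≤ (Fn n m).card := by exact_mod_cast hM
  have h1 := drift A (m := m) (w := w) (T := T) (e := w + T + T) (by omega) (by omega) N
  have h2 := ini_le A (m := m) (w := w) (T := T) (by omega) N
  rw [card_Wn (by omega)] at h2
  have h3 := Ex_mono (step_nonneg A f0) N []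
    ((fun _ => T * Real.log (T / (Wn n w T ∪ Fn n m).card)) - Ini A m w T +
      (T : ℝ) • ((Real.log (T / 10) + 1) • (fun xs => ind (hit (w + T + T) xs)) -
        (1 / (10 * (Fn n m).card / T) : ℝ) • ((fun _ => (T : ℝ)) + ucnt (w + T) (w + T + T) (Fn n m))))
    _ fun xs => le_trans (le_of_eq (by
      simp only [Pi.add_apply, Pi.sub_apply, Pi.smul_apply, smul_eq_mul]; ring))
      (gain_ge A (by omega) hT hM xs)
  simp only [map_add, map_sub, map_smul, Ex_const (step_sum A f0), smul_eq_mul] at h3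
  have h4 := hq.trans (Ex_mono (step_nonneg A f0) N [] _ (fun xs => ind (hit (w + T + T) xs))
    fun xs => by
      have := hit_mono (show w + T + T ≤ n by omega) (xs := xs)
      unfold ind
      split_ifs <;> first | (exfalso; tauto) | norm_num)
  have h5 := ucnt_bound A N (w + T) (Fn n m) (by nlinarith) T fun j hj => by
    simp only [Fn, mem_filter] at hj; omega
  generalize Ex (step A f0) N [] (ucnt (w + T) (w + T + T) (Fn n m)) = u at *
  generalize (Ex (step A f0) N [] fun xs => ind (hit (w + T + T) xs)) = q at *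
  generalize ((Fn n m).card : ℝ) = M at *
  have hM0 : 0 < M := by nlinarith
  have hT0 : (0 : ℝ) < T := by linarith
  have h6 : T ≤ M / T := by rwa [le_div_iff₀ hT0]
  have h7 : u ≤ 4 * (M / T) := by
    rcases h5 with h5 | h5
    · linarith
    · refine h5.trans ?_
      rw [← mul_div_assoc]
      gcongr
      linarith
  have h8 : 1 / (10 * M / T) * (T + u) ≤ 1 / 2 := by
    rw [mul_div_assoc, one_div_mul_eq_div, div_le_iff₀ (by positivity)]
    linarith
  have h9 : 0 ≤ Real.log (T / 10) := Real.log_nonneg (by linarith)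
  have h10 : Real.log (T / 10) / 2 ≤ (Real.log (T / 10) + 1) * q - 1 / (10 * M / T) * (T + u) := by
    nlinarith
  nlinarith [mul_le_mul_of_nonneg_left h10 hT0.le]

lemma steps_sum (d R : ℕ) (xs : List (Fin n → Bool)) :
    ∑ r ∈ range R, steps (d * r) (d * (r + 1)) xs ≤ xs.length := by
  unfold steps
  rw [sum_comm]
  refine le_trans (sum_le_sum fun s _ => (?_ : _ ≤ (1 : ℝ))) (by simp)
  have : ∀ r, ind (hit (d * r) (xs.take s) ∧ ¬hit (d * (r + 1)) (xs.take s)) =
      ind (hit (d * r) (xs.take s)) - ind (hit (d * (r + 1)) (xs.take s)) := fun r => by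
    have := hit_mono (show d * r ≤ d * (r + 1) by nlinarith) (xs := xs.take s)
    unfold ind
    split_ifs <;> first | (exfalso; tauto) | norm_num
  simp only [this]
  rw [sum_range_sub' (fun r => ind (hit (d * r) (xs.take s)))]
  linarith [ind_le_one (hit (d * 0) (xs.take s)), ind_nonneg (hit (d * R) (xs.take s))]

lemma windows (A : Alg n a k) {m T R : ℕ} (hm : 2 * T * R ≤ m) (hn : m ≤ n) (hT : 10 ≤ T)
    (hM : T * T ≤ (Fn n m).card) (N : ℕ)
    (hq : 1 / 2 ≤ Ex (step A f0) N [] fun xs => ind (hit n xs)) :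
    R * (T / 2 * Real.log (T / 10) - 2 * 2 ^ k) ≤ 2 * 2 ^ k * N := by
  have h1 : ∑ r ∈ range R, (T / 2 * Real.log (T / 10) - 2 * 2 ^ k) ≤ ∑ r ∈ range R,
      2 * 2 ^ k * Ex (step A f0) N [] (steps (2 * T * r) (2 * T * (r + 1))) := by
    refine sum_le_sum fun r hr => ?_
    have e : 2 * T * (r + 1) = 2 * T * r + T + T := by ring
    have : 2 * T * (r + 1) ≤ 2 * T * R := Nat.mul_le_mul_left _ (mem_range.1 hr)
    rw [e]
    exact window A (by omega) hn hT hM N hq
  rw [sum_const, card_range, nsmul_eq_mul, ← mul_sum, ← map_sum] at h1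
  refine h1.trans (mul_le_mul_of_nonneg_left ?_ (by positivity))
  rw [← Ex_const (step_sum A f0) N [] (N : ℝ)]
  refine Ex_mono' (step_nonneg A f0) N [] _ _ fun zs hz => ?_
  rw [Finset.sum_apply, List.nil_append, ← hz]
  exact steps_sum _ _ zs

lemma miss_half (A : Alg n a k) (hn : 20000 ≤ n) (hk : (2 : ℝ) ^ k ≤ Real.log n) (N : ℕ)
    (hN : (N : ℝ) < n * Real.log n / (384 * 2 ^ k)) : 1 / 2 ≤ miss A f0 N [] := by
  refine le_trans ?_ (miss_ge A N [])
  by_contra hq
  have hq' : 1 / 2 ≤ Ex (step A f0) N [] fun xs => ind (hit n xs) := by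
    unfold ind; linarith
  obtain ⟨T, hT⟩ : ∃ T, T = Nat.sqrt (n / 2) := ⟨_, rfl⟩
  have t1 : T * T ≤ n / 2 := hT ▸ Nat.sqrt_le _
  have t2 : n / 2 < (T + 1) * (T + 1) := hT ▸ Nat.lt_succ_sqrt _
  have t3 : 100 ≤ T := hT ▸ Nat.le_sqrt.2 (by omega)
  obtain ⟨R, hR⟩ : ∃ R, R = n / 2 / (2 * T) := ⟨_, rfl⟩
  have r1 : 2 * T * R ≤ n / 2 := hR ▸ Nat.mul_div_le _ _
  have r2 : n / 2 < 2 * T * (R + 1) := hR ▸ Nat.lt_mul_div_succ _ (by omega)
  have h := windows A r1 (Nat.div_le_self _ _) (by omega) (by rw [card_Fn]; omega) N hq'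
  have r3 : n ≤ 8 * (R * T) := by
    have : 100 * T ≤ T * T := Nat.mul_le_mul_right _ t3
    have e : 2 * T * (R + 1) = 2 * (R * T) + 2 * T := by ring
    omega
  have t4 : n ≤ T ^ 3 := by
    have : n ≤ 2 * ((T + 1) * (T + 1)) := by omega
    nlinarith
  have hT' : (100 : ℝ) ≤ T := by exact_mod_cast t3
  have l1 : Real.log n ≤ 3 * Real.log T := by
    have := Real.log_le_log (by positivity : (0 : ℝ) < n) (show (n : ℝ) ≤ T ^ 3 by exact_mod_cast t4)
    rwa [Real.log_pow] at this
  have l2 : Real.log T ≤ 2 * Real.log (T / 10) := by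
    have := Real.log_le_log (by positivity : (0 : ℝ) < T) (show (T : ℝ) ≤ (T / 10) ^ 2 by nlinarith)
    rwa [Real.log_pow] at this
  have hK : (0 : ℝ) < 2 ^ k := by positivity
  rw [lt_div_iff₀ (by positivity)] at hN
  have r4 : (n : ℝ) ≤ 8 * (R * T) := by exact_mod_cast r3
  have hR0 : (0 : ℝ) ≤ R := Nat.cast_nonneg R
  have l3 : T * Real.log n / 24 ≤ T / 2 * Real.log (T / 10) - 2 * 2 ^ k := by nlinarith
  have l4 := mul_le_mul_of_nonneg_left l3 hR0
  have l5 := mul_le_mul_of_nonneg_right r4 (hK.le.trans hk)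
  nlinarith

theorem main (A : Alg n a k) (hn : 20000 ≤ n) (hk : (2 : ℝ) ^ k ≤ Real.log n)
    (z : Fin n → Bool) (σ : Equiv.Perm (Fin n)) :
    ENNReal.ofReal (1 / 768 * (n * Real.log n / 2 ^ k)) ≤ expTime A (LO z σ) := by
  set N := ⌈n * Real.log n / (384 * 2 ^ k)⌉₊ with hN
  refine le_trans ?_ (ENNReal.sum_le_tsum (range N))
  refine le_trans ?_ (sum_le_sum (f := fun _ => ENNReal.ofReal (1 / 2)) fun t ht => ?_)
  · rw [sum_const, card_range, nsmul_eq_mul, ← ENNReal.ofReal_natCast,
      ← ENNReal.ofReal_mul (by positivity)]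
    refine ENNReal.ofReal_le_ofReal ?_
    have := Nat.le_ceil (n * Real.log n / (384 * 2 ^ k))
    rw [← hN] at this
    calc 1 / 768 * (n * Real.log n / 2 ^ k) = n * Real.log n / (384 * 2 ^ k) * (1 / 2) := by
          field_simp; ring
      _ ≤ _ := by gcongr
  · rw [miss_eq]
    exact ENNReal.ofReal_le_ofReal (miss_half A hn hk t (Nat.lt_ceil.1 (mem_range.1 ht)))

end Pool.Agent.P.MP_5c258a_lc
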