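import Mathlib

namespace Pool.Agent.P.MP_5c258a_lc

open Finset

variable {P Λ Λ' Ω : Type} [DecidableEq Λ] [DecidableEq Λ']

/-- Size of the class of `b` inside `S`. -/
noncomputable def cnt (S : Finset P) (κ : P → Λ) (b : P) : ℝ :=
  ((S.filter fun p => κ p = κ b).card : ℝ)

/-- The potential. -/
noncomputable def Psi (W V : Finset P) (κ : P → Λ) : ℝ :=
  ∑ b ∈ W, Real.log (cnt W κ b / cnt V κ b)

lemma cnt_nonneg (S : Finset P) (κ : P → Λ) (b : P) : 0 ≤ cnt S κ b := Nat.cast_nonneg _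

lemma cnt_pos {S : Finset P} (κ : P → Λ) {b : P} (hb : b ∈ S) : 0 < cnt S κ b := by
  unfold cnt
  exact_mod_cast card_pos.2 ⟨b, by simp [hb]⟩

lemma cnt_eq_sum (S : Finset P) (κ : P → Λ) (b : P) :
    cnt S κ b = ∑ p ∈ S, if κ p = κ b then (1 : ℝ) else 0 := by
  unfold cnt
  rw [card_filter]; push_cast; rfl

lemma cnt_congr (S : Finset P) (κ : P → Λ) {b b' : P} (h : κ b = κ b') :
    cnt S κ b = cnt S κ b' := by
  unfold cnt; rw [h]

lemma sum_class_le (S : Finset P) (κ : P → Λ) (p : P) (g : ℝ) (hg : 0 ≤ g) :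
    ∑ b ∈ S, (if κ b = κ p then g / cnt S κ b else 0) ≤ g := by
  have : ∑ b ∈ S, (if κ b = κ p then g / cnt S κ b else 0)
      = ∑ b ∈ S, (if κ b = κ p then (1 : ℝ) else 0) * (g / cnt S κ p) := by
    refine sum_congr rfl fun b _ => ?_
    split_ifs with h
    · rw [cnt_congr S κ h]; ring
    · simp
  rw [this, ← sum_mul, ← cnt_eq_sum]
  rcases (cnt_nonneg S κ p).eq_or_lt with h | h
  · rw [← h]; simpa using hg
  · rw [mul_div_cancel₀ _ h.ne']

lemma psi_refine {W V : Finset P} (hWV : W ⊆ V) (κ : P → Λ) (κ' : P → Λ')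
    (h : ∀ p ∈ V, ∀ q ∈ V, κ' p = κ' q → κ p = κ q) : Psi W V κ ≤ Psi W V κ' := by
  have key : ∑ b ∈ W, cnt W κ b / cnt V κ b * (cnt V κ' b / cnt W κ' b) ≤ W.card := by
    calc ∑ b ∈ W, cnt W κ b / cnt V κ b * (cnt V κ' b / cnt W κ' b)
        = ∑ b ∈ W, ∑ p ∈ V, (if κ' b = κ' p then (cnt W κ p / cnt V κ p) / cnt W κ' b else 0) := by
          refine sum_congr rfl fun b hb => ?_
          rw [cnt_eq_sum V κ' b, sum_div, mul_sum]
          refine sum_congr rfl fun p hp => ?_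
          by_cases hh : κ' p = κ' b
          · have := h p hp b (hWV hb) hh
            rw [if_pos hh, if_pos hh.symm, cnt_congr W κ this, cnt_congr V κ this]; ring
          · rw [if_neg hh, if_neg (fun e => hh e.symm)]; simp
      _ = ∑ p ∈ V, ∑ b ∈ W, (if κ' b = κ' p then (cnt W κ p / cnt V κ p) / cnt W κ' b else 0) :=
          sum_comm
      _ ≤ ∑ p ∈ V, cnt W κ p / cnt V κ p :=
          sum_le_sum fun p _ => sum_class_le W κ' p _
            (div_nonneg (cnt_nonneg _ _ _) (cnt_nonneg _ _ _))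
      _ = ∑ p ∈ V, ∑ b ∈ W, (if κ p = κ b then 1 / cnt V κ p else 0) := by
          refine sum_congr rfl fun p _ => ?_
          rw [cnt_eq_sum W κ p, sum_div]
          refine sum_congr rfl fun b _ => ?_
          by_cases hh : κ b = κ p
          · rw [if_pos hh, if_pos hh.symm]
          · rw [if_neg hh, if_neg (fun e => hh e.symm)]; simp
      _ = ∑ b ∈ W, ∑ p ∈ V, (if κ p = κ b then 1 / cnt V κ p else 0) := sum_comm
      _ ≤ ∑ b ∈ W, (1 : ℝ) := sum_le_sum fun b _ => sum_class_le V κ b 1 zero_le_one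
      _ = W.card := by simp
  have each : ∀ b ∈ W, Real.log (cnt W κ b / cnt V κ b) + 1
      - cnt W κ b / cnt V κ b * (cnt V κ' b / cnt W κ' b) ≤ Real.log (cnt W κ' b / cnt V κ' b) := by
    intro b hb
    have h1 := cnt_pos κ hb
    have h2 := cnt_pos κ (hWV hb)
    have h3 := cnt_pos κ' hb
    have h4 := cnt_pos κ' (hWV hb)
    have h5 := Real.log_le_sub_one_of_pos
      (show 0 < cnt W κ b / cnt V κ b * (cnt V κ' b / cnt W κ' b) by positivity)
    rw [Real.log_mul (by positivity) (by positivity), Real.log_div h4.ne' h3.ne'] at h5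
    rw [Real.log_div h3.ne' h4.ne']
    linarith
  have := sum_le_sum each
  rw [sum_sub_distrib, sum_add_distrib] at this
  simp only [sum_const, nsmul_eq_mul, mul_one] at this
  unfold Psi
  linarith

lemma psi_unit (W V : Finset P) :
    Psi W V (fun _ => ()) = W.card * Real.log (W.card / V.card) := by
  simp [Psi, cnt]

lemma psi_lower {W V : Finset P} (hWV : W ⊆ V) (κ : P → Λ) :
    W.card * Real.log (W.card / V.card) ≤ Psi W V κ := by
  rw [← psi_unit]
  exact psi_refine hWV _ _ fun _ _ _ _ _ => rfl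

lemma psi_remove {W V V' : Finset P} (hV : V' ⊆ V) (κ : P → Λ)
    (h : ∀ p ∈ V, ∀ b ∈ W, κ p = κ b → p ∈ V') : Psi W V' κ = Psi W V κ := by
  unfold Psi
  refine sum_congr rfl fun b hb => ?_
  congr 2
  unfold cnt
  congr 2
  ext p
  simp only [mem_filter]
  exact ⟨fun hp => ⟨hV hp.1, hp.2⟩, fun hp => ⟨h p hp.1 b hb hp.2, hp.2⟩⟩

lemma sum_inv_cnt (C : Finset P) (L : P → Λ) :
    ∑ p ∈ C, 1 / cnt C L p = ((C.image L).card : ℝ) := by
  rw [← sum_fiberwise_of_maps_to (s := C) (t := C.image L) (g := L)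
    (fun p hp => mem_image_of_mem L hp)]
  rw [card_eq_sum_ones, Nat.cast_sum]
  refine sum_congr rfl fun l hl => ?_
  obtain ⟨q, hq, rfl⟩ := mem_image.1 hl
  rw [sum_congr rfl (g := fun _ => 1 / cnt C L q)
    (fun p hp => by rw [cnt_congr C L (mem_filter.1 hp).2])]
  have := cnt_pos L hq
  rw [sum_const, nsmul_eq_mul]
  unfold cnt at *
  field_simp
  simp

variable [DecidableEq P]

lemma cnt_swap {C : Finset P} {p q : P} (hp : p ∈ C) (hq : q ∈ C) (l : P → Λ) (b : P) :
    cnt C (l ∘ Equiv.swap p q) b = cnt C l (Equiv.swap p q b) := by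
  have hm : ∀ x ∈ C, Equiv.swap p q x ∈ C := by
    intro x hx
    rw [Equiv.swap_apply_def]
    split_ifs <;> assumption
  unfold cnt
  congr 1
  refine card_nbij' (Equiv.swap p q) (Equiv.swap p q) ?_ ?_ ?_ ?_
  · intro x hx
    simp only [coe_filter, Set.mem_ofPred_eq, Function.comp] at hx ⊢
    exact ⟨hm x hx.1, hx.2⟩
  · intro x hx
    simp only [coe_filter, Set.mem_ofPred_eq, Function.comp] at hx ⊢
    exact ⟨hm x hx.1, by simpa using hx.2⟩
  · intro x _; simp
  · intro x _; simp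

lemma exch_core (E : (Ω → ℝ) →ₗ[ℝ] ℝ) (hmono : ∀ φ ψ : Ω → ℝ, (∀ ω, φ ω ≤ ψ ω) → E φ ≤ E ψ)
    (hconst : ∀ c : ℝ, E (fun _ => c) = c) (L : Ω → P → Λ) {C Cw : Finset P} (hC : Cw ⊆ C)
    {b : P} (hb : b ∈ Cw) (K : ℝ) (hK : ∀ ω, ((C.image (L ω)).card : ℝ) ≤ K)
    (hsw : ∀ p ∈ C, ∀ q ∈ C, ∀ g : (P → Λ) → ℝ,
      E (fun ω => g (L ω ∘ Equiv.swap p q)) = E (fun ω => g (L ω))) :
    E (fun ω => cnt Cw (L ω) b / cnt C (L ω) b) ≤ (K + Cw.card) / C.card := by
  have hbC := hC hb
  have hN : (0 : ℝ) < C.card := by exact_mod_cast card_pos.2 ⟨b, hbC⟩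
  set a : P → ℝ := fun q => E (fun ω => (if L ω q = L ω b then 1 else 0) / cnt C (L ω) b) with ha
  have hsum : ∀ S : Finset P, E (fun ω => cnt S (L ω) b / cnt C (L ω) b) = ∑ q ∈ S, a q := by
    intro S
    simp only [ha]
    rw [← map_sum]
    congr 1
    ext ω
    rw [cnt_eq_sum S, sum_div, Finset.sum_apply]
  have h1 : ∑ q ∈ C, a q = 1 := by
    rw [← hsum, ← hconst 1]
    congr 1
    ext ω
    exact div_self (cnt_pos _ hbC).ne'
  have hab : ∀ q, a q ≤ a b := by
    intro q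
    refine hmono _ _ fun ω => ?_
    have := cnt_pos (L ω) hbC
    gcongr
    split_ifs <;> simp_all
  have hsame : ∀ q ∈ C, ∀ q' ∈ C, q ≠ b → q' ≠ b → a q = a q' := by
    intro q hq q' hq' h h'
    have := hsw q hq q' hq' (fun l => (if l q' = l b then 1 else 0) / cnt C l b)
    simp only [ha]
    rw [← this]
    congr 1
    ext ω
    rw [cnt_swap hq hq']
    simp [Equiv.swap_apply_of_ne_of_ne h.symm h'.symm]
  have ha1 : ∀ q ∈ C, q ≠ b → a q ≤ 1 / C.card := by
    intro q hq h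
    rw [le_div_iff₀ hN, ← h1, mul_comm, ← nsmul_eq_mul, ← sum_const]
    refine sum_le_sum fun q' hq' => ?_
    by_cases h' : q' = b
    · rw [h']; exact hab q
    · exact (hsame q hq q' hq' h h').le
  have ha2 : a b ≤ K / C.card := by
    have e1 : ∀ p ∈ C, E (fun ω => 1 / cnt C (L ω) p) = a b := by
      intro p hp
      have := hsw b hbC p hp (fun l => 1 / cnt C l b)
      simp only [ha, if_true]
      rw [← this]
      congr 1
      ext ω
      rw [cnt_swap hbC hp]
      simp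
    rw [le_div_iff₀ hN, mul_comm, ← nsmul_eq_mul, ← sum_const, ← sum_congr rfl e1, ← map_sum,
      ← hconst K]
    refine hmono _ _ fun ω => ?_
    rw [Finset.sum_apply, sum_inv_cnt]
    exact hK ω
  rw [hsum, ← add_sum_erase _ _ hb, add_div]
  refine add_le_add ha2 ?_
  calc ∑ q ∈ Cw.erase b, a q ≤ ∑ q ∈ Cw.erase b, (1 : ℝ) / C.card :=
        sum_le_sum fun q hq => ha1 q (hC (mem_of_mem_erase hq)) (ne_of_mem_erase hq)
    _ ≤ ∑ q ∈ Cw, (1 : ℝ) / C.card :=
        sum_le_sum_of_subset_of_nonneg (erase_subset _ _) fun _ _ _ => by positivity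
    _ = Cw.card / C.card := by rw [sum_const, nsmul_eq_mul]; ring

lemma exch (E : (Ω → ℝ) →ₗ[ℝ] ℝ) (hmono : ∀ φ ψ : Ω → ℝ, (∀ ω, φ ω ≤ ψ ω) → E φ ≤ E ψ)
    (hconst : ∀ c : ℝ, E (fun _ => c) = c) (L : Ω → P → Λ) (κ : P → Λ') {W V : Finset P}
    (hWV : W ⊆ V) (K : ℝ) (hK : ∀ ω, ((V.image (L ω)).card : ℝ) ≤ K)
    (hsw : ∀ p ∈ V, ∀ q ∈ V, κ p = κ q → ∀ g : (P → Λ) → ℝ,
      E (fun ω => g (L ω ∘ Equiv.swap p q)) = E (fun ω => g (L ω))) :
    E (fun ω => Psi W V fun p => (κ p, L ω p)) ≤ Psi W V κ + K * (W.image κ).card := by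
  have hc : ∀ (S : Finset P) ω b, cnt S (fun p => (κ p, L ω p)) b
      = cnt (S.filter fun p => κ p = κ b) (L ω) b := by
    intro S ω b
    unfold cnt
    rw [filter_filter]
    congr 2
    ext p; simp
  have each : ∀ b ∈ W, E (fun ω => Real.log (cnt W (fun p => (κ p, L ω p)) b
      / cnt V (fun p => (κ p, L ω p)) b)) ≤ Real.log (cnt W κ b / cnt V κ b) + K * (1 / cnt W κ b) := by
    intro b hb
    have h1 := cnt_pos κ hb
    have h2 := cnt_pos κ (hWV hb)
    have hcore := exch_core E hmono hconst L (C := V.filter fun p => κ p = κ b)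
      (Cw := W.filter fun p => κ p = κ b) (filter_subset_filter _ hWV) (b := b) (by simp [hb]) K
      (fun ω => le_trans (by exact_mod_cast card_le_card (image_subset_image (filter_subset _ _)))
        (hK ω))
      (fun p hp q hq => hsw p (mem_filter.1 hp).1 q (mem_filter.1 hq).1
        ((mem_filter.1 hp).2.trans (mem_filter.1 hq).2.symm))
    have hle := hmono (fun ω => Real.log (cnt W (fun p => (κ p, L ω p)) b
      / cnt V (fun p => (κ p, L ω p)) b))
      ((fun _ => Real.log (cnt W κ b / cnt V κ b) - 1) + (cnt V κ b / cnt W κ b) •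
        fun ω => cnt (W.filter fun p => κ p = κ b) (L ω) b
          / cnt (V.filter fun p => κ p = κ b) (L ω) b) (fun ω => by
        simp only [Pi.add_apply, Pi.smul_apply, smul_eq_mul]
        rw [← hc, ← hc]
        have h3 := cnt_pos (fun p => (κ p, L ω p)) hb
        have h4 := cnt_pos (fun p => (κ p, L ω p)) (hWV hb)
        have h5 := Real.log_le_sub_one_of_pos (show 0 < cnt V κ b / cnt W κ b *
          (cnt W (fun p => (κ p, L ω p)) b / cnt V (fun p => (κ p, L ω p)) b) by positivity)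
        rw [Real.log_mul (by positivity) (by positivity), Real.log_div h2.ne' h1.ne'] at h5
        rw [Real.log_div h1.ne' h2.ne']
        linarith)
    rw [map_add, map_smul, hconst, smul_eq_mul] at hle
    have h6 : cnt V κ b / cnt W κ b * ((K + cnt W κ b) / cnt V κ b) = K * (1 / cnt W κ b) + 1 := by
      field_simp
    have h7 := mul_le_mul_of_nonneg_left hcore (show 0 ≤ cnt V κ b / cnt W κ b by positivity)
    change _ ≤ cnt V κ b / cnt W κ b * ((K + cnt W κ b) / cnt V κ b) at h7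
    linarith
  have := sum_le_sum each
  rw [sum_add_distrib, ← mul_sum, sum_inv_cnt, ← map_sum] at this
  refine le_trans (le_of_eq ?_) this
  congr 1
  ext ω
  rw [Finset.sum_apply]; rfl

end Pool.Agent.P.MP_5c258a_lc
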