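import Pool.Agent.P.MP_5c258a_lc.Sym

namespace Pool.Agent.P.MP_5c258a_lc

open Finset Classical

variable {n a k : ℕ}

lemma couple (A : Alg n a k) (N : ℕ) (π : Equiv.Perm (Fin n)) (w : Fin n → Bool)
    (hτ : Function.Involutive (sp π w)) (ψ : List (Fin n → Bool) → ℝ)
    (hψ : ∀ ls, (∃ l ∈ ls, f0 (sp π w l) ≠ f0 l) → ∀ zs, ψ (ls ++ zs) = ψ ls) :
    Ex (step A f0) N [] (fun zs => ψ (zs.map (sp π w))) = Ex (step A f0) N [] ψ :=
  Ex_couple (step_sum A f0) f0 _ hτ (fun xs y h => step_sp A f0 f0 π w xs y h) ψ hψ N []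

/-- Level `i` is reached, and until then bit `j` is `false` in all queries of level `≥ c`. -/
def unc (c i : ℕ) (j : Fin n) : List (Fin n → Bool) → Prop
  | [] => False
  | y :: ys => (c ≤ f0 y → y j = false) ∧ (i ≤ f0 y ∨ unc c i j ys)

/-- Exchange of two coordinates. -/
def sw (p q : Fin n) : (Fin n → Bool) → Fin n → Bool := sp (Equiv.swap p q) fun _ => false

lemma sw_apply (p q : Fin n) (x : Fin n → Bool) (j : Fin n) : sw p q x j = x (Equiv.swap p q j) := by
  simp [sw, sp]

lemma sw_invol (p q : Fin n) : Function.Involutive (sw p q) := by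
  intro x; funext j; simp [sw_apply]

lemma sw_low {p q : Fin n} {i : ℕ} (hp : i ≤ p.val) (hq : i ≤ q.val) (x : Fin n → Bool)
    (j : Fin n) (hj : j.val < i) : sw p q x j = x j := by
  rw [sw_apply, Equiv.swap_apply_of_ne_of_ne]
  · intro h; subst h; omega
  · intro h; subst h; omega

lemma unc_succ {c i : ℕ} {j : Fin n} : ∀ {xs : List (Fin n → Bool)},
    unc c (i + 1) j xs → unc c i j xs
  | [], h => h
  | _ :: _, h => ⟨h.1, h.2.imp (fun h => by omega) unc_succ⟩

lemma unc_hit {c i : ℕ} {j : Fin n} : ∀ {xs : List (Fin n → Bool)}, unc c i j xs → hit i xs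
  | [], h => h.elim
  | _ :: _, h => (hit_cons _ _ _).2 (h.2.imp id unc_hit)

lemma unc_frozen {c i : ℕ} {j : Fin n} (zs : List (Fin n → Bool)) :
    ∀ {xs : List (Fin n → Bool)}, hit i xs → (unc c i j (xs ++ zs) ↔ unc c i j xs)
  | [], h => (hit_nil _ h).elim
  | y :: ys, h => by
    simp only [List.cons_append, unc]
    by_cases hy : i ≤ f0 y
    · simp [hy]
    · rw [unc_frozen zs (((hit_cons _ _ _).1 h).resolve_left hy)]

lemma unc_frozen' {c i : ℕ} {j : Fin n} (zs : List (Fin n → Bool)) {l : Fin n → Bool}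
    (hc : c ≤ f0 l) (hl : l j = true) :
    ∀ {xs : List (Fin n → Bool)}, l ∈ xs → (unc c i j (xs ++ zs) ↔ unc c i j xs)
  | [], h => by simp at h
  | y :: ys, h => by
    simp only [List.cons_append, unc]
    rcases List.mem_cons.1 h with h | h
    · subst h; simp [hc, hl]
    · rw [unc_frozen' zs hc hl h]

lemma unc_map {c i : ℕ} (hci : c ≤ i) {p q : Fin n} (hp : i ≤ p.val) (hq : i ≤ q.val) (j : Fin n) :
    ∀ xs : List (Fin n → Bool), unc c i j (xs.map (sw p q)) ↔ unc c i (Equiv.swap p q j) xs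
  | [] => Iff.rfl
  | y :: ys => by
    simp only [List.map_cons, unc]
    rw [unc_map hci hp hq j ys, le_f0_congr (sw_low hp hq y),
      le_f0_congr (sw_low (hci.trans hp) (hci.trans hq) y), sw_apply]

lemma unc_disj {c : ℕ} {i j : Fin n} (hci : c ≤ i.val) (hij : i.val ≤ j.val) :
    ∀ xs : List (Fin n → Bool), unc c (i.val + 1) j xs → ¬unc c (i.val + 1) j (xs.map (sw i j))
  | [], h, _ => h
  | y :: ys, h, h' => by
    simp only [List.map_cons, unc] at h h'
    have e := le_f0_congr (sw_low hci (hci.trans hij) y)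
    rcases h.2 with h2 | h2
    · have := f0_true h2 i (by omega)
      have h3 := h'.1 (e.2 (by omega))
      rw [sw_apply, Equiv.swap_apply_right] at h3
      simp [this] at h3
    rcases h'.2 with h3 | h3
    · have := f0_true h3 i (by omega)
      rw [sw_apply, Equiv.swap_apply_left] at this
      have h4 := h.1 (e.1 (by omega))
      simp [this] at h4
    · exact unc_disj hci hij ys h2 h3

lemma sw_ne {i j : Fin n} (hij : i.val ≤ j.val) {l : Fin n → Bool} (h : f0 (sw i j l) ≠ f0 l) :
    i.val ≤ f0 l ∧ (l i = true ∨ l j = true) := by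
  refine ⟨?_, ?_⟩
  · by_contra h'
    exact h (f0_congr (sw_low le_rfl hij l) (by omega))
  · by_contra h'
    apply h
    congr 1
    funext p
    rw [sw_apply, Equiv.swap_apply_def]
    split_ifs with h1 h2
    · subst h1; simp_all
    · subst h2; simp_all
    · rfl

/-- Indicator of a proposition. -/
noncomputable def ind (p : Prop) : ℝ := if p then 1 else 0

lemma ind_nonneg (p : Prop) : 0 ≤ ind p := by unfold ind; split_ifs <;> norm_num

lemma ind_le_one (p : Prop) : ind p ≤ 1 := by unfold ind; split_ifs <;> norm_num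

/-- The number of uncovered positions of `F`. -/
noncomputable def ucnt (c i : ℕ) (F : Finset (Fin n)) (xs : List (Fin n → Bool)) : ℝ :=
  ∑ j ∈ F, ind (unc c i j xs)

lemma half_step (A : Alg n a k) (N : ℕ) {c : ℕ} {i j : Fin n} (hci : c ≤ i.val)
    (hij : i.val ≤ j.val) :
    Ex (step A f0) N [] (fun xs => ind (unc c (i.val + 1) j xs)) ≤
      Ex (step A f0) N [] (fun xs => ind (unc c i.val j xs)) -
        1 / 2 * Ex (step A f0) N [] (fun xs => ind (unc c i.val j xs ∧ unc c i.val i xs)) := by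
  set ψ : List (Fin n → Bool) → ℝ := fun xs => ind (unc c (i.val + 1) j xs ∧ unc c i.val i xs)
    with hψ
  have h1 := couple A N (Equiv.swap i j) (fun _ => false) (sw_invol i j) ψ (by
    rintro ls ⟨l, hl, hne⟩ zs
    obtain ⟨h1, h2⟩ := sw_ne hij hne
    simp only [hψ]
    rw [unc_frozen zs ⟨l, hl, h1⟩]
    rcases h2 with h2 | h2
    · rw [unc_frozen zs ⟨l, hl, succ_le_f0 h1 h2⟩]
    · rw [unc_frozen' zs (hci.trans h1) h2 hl])
  have h2 := Ex_mono (step_nonneg A f0) N [] (ψ + fun zs => ψ (zs.map (sw i j)))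
    (fun xs => ind (unc c i.val j xs ∧ unc c i.val i xs)) (fun xs => by
      simp only [hψ, Pi.add_apply]
      have e1 := unc_map hci le_rfl hij i xs
      have e2 := unc_map hci le_rfl hij j xs
      rw [Equiv.swap_apply_left] at e1
      rw [Equiv.swap_apply_right] at e2
      have e3 := unc_disj hci hij xs
      have e4 := unc_succ (c := c) (i := i.val) (j := j) (xs := xs)
      have e5 := unc_succ (c := c) (i := i.val) (j := j) (xs := xs.map (sw i j))
      unfold ind
      split_ifs <;> first | (exfalso; tauto) | norm_num)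
  have h3 := Ex_mono (step_nonneg A f0) N []
    ((fun xs => ind (unc c (i.val + 1) j xs)) + fun xs => ind (unc c i.val j xs ∧ unc c i.val i xs))
    ((fun xs => ind (unc c i.val j xs)) + ψ) (fun xs => by
      simp only [hψ, Pi.add_apply]
      have e4 := unc_succ (c := c) (i := i.val) (j := j) (xs := xs)
      unfold ind
      split_ifs <;> first | (exfalso; tauto) | norm_num)
  rw [map_add] at h2
  rw [map_add, map_add] at h3
  change Ex (step A f0) N [] (fun zs => ψ (zs.map (sw i j))) = _ at h1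
  linarith

lemma pair_sym (A : Alg n a k) (N : ℕ) {c : ℕ} {i j j' : Fin n} (hci : c ≤ i.val)
    (hij : i.val < j.val) (hij' : i.val ≤ j'.val) (hne : j ≠ j') :
    Ex (step A f0) N [] (fun xs => ind (unc c i.val j xs ∧ unc c i.val j' xs)) =
      Ex (step A f0) N [] (fun xs => ind (unc c i.val j xs ∧ unc c i.val i xs)) := by
  rw [← couple A N (Equiv.swap i j') (fun _ => false) (sw_invol i j')
    (fun xs => ind (unc c i.val j xs ∧ unc c i.val j' xs)) (by
    rintro ls ⟨l, hl, hne⟩ zs
    obtain ⟨h1, _⟩ := sw_ne hij' hne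
    rw [unc_frozen zs ⟨l, hl, h1⟩, unc_frozen zs ⟨l, hl, h1⟩])]
  congr 1
  funext xs
  have e1 := unc_map hci le_rfl hij' j xs
  have e2 := unc_map hci le_rfl hij' j' xs
  rw [Equiv.swap_apply_of_ne_of_ne (by intro h; subst h; omega) hne] at e1
  rw [Equiv.swap_apply_right] at e2
  change ind (unc c i.val j (xs.map (sw i j')) ∧ unc c i.val j' (xs.map (sw i j'))) = _
  rw [e1, e2]

lemma ucnt_step (A : Alg n a k) (N : ℕ) {c : ℕ} {i : Fin n} (hci : c ≤ i.val) (F : Finset (Fin n))
    (hF : ∀ j ∈ F, i.val < j.val) :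
    2 * F.card * Ex (step A f0) N [] (ucnt c (i.val + 1) F) ≤
      2 * F.card * Ex (step A f0) N [] (ucnt c i.val F) -
        (Ex (step A f0) N [] (ucnt c i.val F) ^ 2 - Ex (step A f0) N [] (ucnt c i.val F)) := by
  set E := Ex (step A f0) N [] with hE
  have hs : ∀ i, E (ucnt c i F) = ∑ j ∈ F, E (fun xs => ind (unc c i j xs)) := by
    intro i
    rw [← map_sum]; congr 1; funext xs; rw [Finset.sum_apply]; rfl
  set g : Fin n → ℝ := fun j => E (fun xs => ind (unc c i.val j xs ∧ unc c i.val i xs)) with hg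
  have h1 : E (ucnt c (i.val + 1) F) ≤ E (ucnt c i.val F) - 1 / 2 * ∑ j ∈ F, g j := by
    rw [hs, hs, mul_sum, ← sum_sub_distrib]
    exact sum_le_sum fun j hj => half_step A N hci (hF j hj).le
  have hg0 : ∀ j, 0 ≤ g j := fun j => by
    rw [← Ex_const (step_sum A f0) N [] 0]
    exact Ex_mono (step_nonneg A f0) N [] _ _ fun _ => ind_nonneg _
  have h2 : E (fun xs => ucnt c i.val F xs ^ 2) ≤ E (ucnt c i.val F) + F.card * ∑ j ∈ F, g j := by
    have : (fun xs => ucnt c i.val F xs ^ 2) = ∑ j ∈ F, ∑ j' ∈ F,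
        fun xs => ind (unc c i.val j xs ∧ unc c i.val j' xs) := by
      funext xs
      simp only [Finset.sum_apply, ucnt, sq, sum_mul_sum]
      refine sum_congr rfl fun j _ => sum_congr rfl fun j' _ => ?_
      unfold ind
      split_ifs <;> first | (exfalso; tauto) | norm_num
    rw [this, map_sum, hs, mul_sum, ← sum_add_distrib]
    refine sum_le_sum fun j hj => ?_
    rw [map_sum, ← add_sum_erase _ _ hj]
    refine add_le_add (by simp) ?_
    calc ∑ j' ∈ F.erase j, E (fun xs => ind (unc c i.val j xs ∧ unc c i.val j' xs))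
        = ∑ j' ∈ F.erase j, g j := sum_congr rfl fun j' hj' =>
          pair_sym A N hci (hF j hj) (hF j' (mem_of_mem_erase hj')).le (ne_of_mem_erase hj').symm
      _ ≤ ∑ j' ∈ F, g j := sum_le_sum_of_subset_of_nonneg (erase_subset _ _) fun _ _ _ => hg0 j
      _ = F.card * g j := by rw [sum_const, nsmul_eq_mul]
  have h3 : E (ucnt c i.val F) ^ 2 ≤ E (fun xs => ucnt c i.val F xs ^ 2) := by
    have := Ex_mono (step_nonneg A f0) N []
      ((2 * E (ucnt c i.val F)) • ucnt c i.val F - fun _ => E (ucnt c i.val F) ^ 2)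
      (fun xs => ucnt c i.val F xs ^ 2) (fun xs => by
        simp only [Pi.sub_apply, Pi.smul_apply, smul_eq_mul]
        nlinarith [sq_nonneg (ucnt c i.val F xs - E (ucnt c i.val F))])
    rw [map_sub, map_smul, Ex_const (step_sum A f0), smul_eq_mul, ← hE] at this
    nlinarith
  have h4 := mul_le_mul_of_nonneg_left h1 (show (0 : ℝ) ≤ 2 * F.card by positivity)
  nlinarith

lemma ucnt_bound (A : Alg n a k) (N c : ℕ) (F : Finset (Fin n)) (hF0 : 0 < F.card) :
    ∀ t : ℕ, (∀ j ∈ F, c + t ≤ j.val) →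
      Ex (step A f0) N [] (ucnt c (c + t) F) ≤ 2 ∨
        Ex (step A f0) N [] (ucnt c (c + t) F) ≤ 4 * F.card / (t + 4)
  | 0, _ => by
    right
    rw [← Ex_const (step_sum A f0) N [] (4 * F.card / (((0 : ℕ) : ℝ) + 4))]
    refine Ex_mono (step_nonneg A f0) N [] _ _ fun xs => ?_
    refine le_trans (sum_le_sum fun j _ => ind_le_one _) ?_
    simp
  | t + 1, h => by
    obtain ⟨j0, hj0⟩ := card_pos.1 hF0
    have hlt : c + t < n := by have := h j0 hj0; have := j0.2; omega
    have hs := ucnt_step A N (c := c) (i := ⟨c + t, hlt⟩) (by simp) F fun j hj => by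
      have := h j hj; simp only; omega
    have hm : Ex (step A f0) N [] (ucnt c (c + t + 1) F) ≤ Ex (step A f0) N [] (ucnt c (c + t) F) :=
      Ex_mono (step_nonneg A f0) N [] _ _ fun xs => sum_le_sum fun j _ => by
        have := unc_succ (c := c) (i := c + t) (j := j) (xs := xs)
        unfold ind
        split_ifs <;> first | (exfalso; tauto) | norm_num
    have ih := ucnt_bound A N c F hF0 t fun j hj => by have := h j hj; omega
    simp only at hs
    rw [← add_assoc]
    set u := Ex (step A f0) N [] (ucnt c (c + t) F)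
    set v := Ex (step A f0) N [] (ucnt c (c + t + 1) F)
    have hM : (0 : ℝ) < F.card := by exact_mod_cast hF0
    generalize (F.card : ℝ) = M at *
    by_cases hu : u ≤ 2
    · exact Or.inl (hm.trans hu)
    right
    have ih' := ih.resolve_left hu
    have ht : (0 : ℝ) ≤ t := Nat.cast_nonneg t
    rw [le_div_iff₀ (by positivity)] at ih'
    push_cast
    rw [le_div_iff₀ (by positivity)]
    push Not at hu
    have h5 : 4 * M * v ≤ 4 * M * u - u ^ 2 := by nlinarith
    have h6 : (4 * M * u - u ^ 2) * (t + 1 + 4) ≤ 4 * M * (4 * M) := by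
      have h7 : 0 ≤ 4 * M - u * (t + 4) := by linarith
      nlinarith [mul_nonneg h7 h7, mul_nonneg h7 hM.le, mul_nonneg h7 (by linarith : 0 ≤ u),
        sq_nonneg u, mul_nonneg (mul_nonneg h7 (by linarith : 0 ≤ u)) ht]
    have h8 : 4 * M * (v * (t + 1 + 4)) ≤ 4 * M * (4 * M) := by nlinarith
    exact le_of_mul_le_mul_left h8 (by positivity)

end Pool.Agent.P.MP_5c258a_lc
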