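import Pool.Agent.P.MP_5c258a_lc.Main

namespace Pool.Agent.Results.MP_5c258a_lc.Memory

open Pool.Agent.P.MP_5c258a_lc MeasureTheory

theorem result : ∃ c : ℝ, 0 < c ∧ ∃ n₀ : ℕ, ∀ n ≥ n₀, ∀ a k : ℕ, (2 : ℝ) ^ k ≤ Real.log n →
    ∀ (Ω : Type) [MeasurableSpace Ω] (μ : Measure Ω) [IsProbabilityMeasure μ]
      (A : Ω → Alg n a k) (z : Fin n → Bool) (σ : Equiv.Perm (Fin n)),
      ENNReal.ofReal (c * (n * Real.log n / 2 ^ k)) ≤ ∫⁻ ω, expTime (A ω) (LO z σ) ∂μ := by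
  refine ⟨1 / 768, by norm_num, 20000, fun n hn a k hk Ω _ μ _ A z σ => ?_⟩
  refine le_trans ?_ (lintegral_mono fun ω => main (A ω) hn hk z σ)
  simp

end Pool.Agent.Results.MP_5c258a_lc.Memory
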