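import Pool.Agent.P.MP_5c258a_lc.Unc
import Pool.Agent.P.MP_5c258a_lc.Pot

namespace Pool.Agent.P.MP_5c258a_lc

open Finset Classical

variable {n a k : ℕ}

/-- The bit at `p`, negated at the positions `≥ m`. -/
def tb (m : ℕ) (x : Fin n → Bool) (p : Fin n) : Bool := xor (x p) (decide (m ≤ p.val))

/-- Exchange of two coordinates that respects `tb`. -/
def ts (m : ℕ) (p q : Fin n) : (Fin n → Bool) → Fin n → Bool :=
  sp (Equiv.swap p q) fun j => xor (decide (m ≤ (Equiv.swap p q j).val)) (decide (m ≤ j.val))

lemma tb_ts (m : ℕ) (p q : Fin n) (x : Fin n → Bool) (j : Fin n) :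
    tb m (ts m p q x) j = tb m x (Equiv.swap p q j) := by
  simp only [tb, ts, sp]
  cases x (Equiv.swap p q j) <;> cases decide (m ≤ (Equiv.swap p q j).val) <;>
    cases decide (m ≤ j.val) <;> rfl

lemma tb_inj {m : ℕ} {x y : Fin n → Bool} (h : ∀ j, tb m x j = tb m y j) : x = y := by
  funext j
  simpa [tb] using h j

lemma ts_invol (m : ℕ) (p q : Fin n) : Function.Involutive (ts m p q) := fun x =>
  tb_inj (m := m) fun j => by rw [tb_ts, tb_ts, Equiv.swap_apply_self]

lemma ts_fix {m : ℕ} {p q : Fin n} {x : Fin n → Bool} (h : tb m x p = tb m x q) :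
    ts m p q x = x :=
  tb_inj (m := m) fun j => by
    rw [tb_ts, Equiv.swap_apply_def]
    split_ifs with h1 h2
    · rw [h1, h]
    · rw [h2, h]
    · rfl

lemma ts_low {m : ℕ} {p q : Fin n} {i : ℕ} (hp : i ≤ p.val) (hq : i ≤ q.val) (x : Fin n → Bool)
    (j : Fin n) (hj : j.val < i) : ts m p q x j = x j := by
  have : Equiv.swap p q j = j := by
    apply Equiv.swap_apply_of_ne_of_ne
    · intro h; subst h; omega
    · intro h; subst h; omega
  simp [ts, sp, this]

/-- The pattern of position `p` in the queries with numbers in `S`. -/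
noncomputable def label (m : ℕ) (xs : List (Fin n → Bool)) (S : Finset ℕ) (p : Fin n) : Finset ℕ :=
  S.filter fun s => (xs[s]?.map fun x => tb m x p) = some true

lemma label_eq_iff {m : ℕ} {xs : List (Fin n → Bool)} {S : Finset ℕ} {p q : Fin n} :
    label m xs S p = label m xs S q ↔ ∀ s ∈ S, ∀ l, xs[s]? = some l → tb m l p = tb m l q := by
  constructor
  · intro h s hs l hl
    have := Finset.ext_iff.1 h s
    simp only [label, mem_filter, hs, true_and, hl, Option.map_some, Option.some.injEq] at this
    exact Bool.eq_iff_iff.2 this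
  · intro h
    refine filter_congr fun s hs => ?_
    cases hl : xs[s]? with
    | none => simp
    | some l => simp [h s hs l hl]

lemma label_map (m : ℕ) (p q : Fin n) (xs : List (Fin n → Bool)) (S : Finset ℕ) :
    label m (xs.map (ts m p q)) S = label m xs S ∘ Equiv.swap p q := by
  funext j
  simp only [label, Function.comp, List.getElem?_map, Option.map_map]
  congr 1
  funext s
  congr 2
  funext x
  exact tb_ts m p q x j

lemma label_card (m : ℕ) (xs : List (Fin n → Bool)) {S : Finset ℕ} {r : ℕ} (h : S.card ≤ r)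
    (V : Finset (Fin n)) : ((V.image (label m xs S)).card : ℝ) ≤ 2 ^ r := by
  have : V.image (label m xs S) ⊆ S.powerset := by
    intro l hl
    obtain ⟨p, _, rfl⟩ := mem_image.1 hl
    exact mem_powerset.2 (filter_subset _ _)
  have h2 := card_le_card this
  rw [card_powerset] at h2
  exact_mod_cast h2.trans (Nat.pow_le_pow_right two_pos h)

/-- The window. -/
def Wn (n w T : ℕ) : Finset (Fin n) := univ.filter fun j => w ≤ j.val ∧ j.val < w + T

/-- The far positions. -/
def Fn (n m : ℕ) : Finset (Fin n) := univ.filter fun j => m ≤ j.val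

/-- The window and the far positions not yet told apart from it. -/
noncomputable def Vn (m w T : ℕ) (xs : List (Fin n → Bool)) : Finset (Fin n) :=
  Wn n w T ∪ (Fn n m).filter fun j => ∀ y ∈ xs, w + T ≤ f0 y → y j = false

/-- The potential of a history. -/
noncomputable def Phi (A : Alg n a k) (m w T : ℕ) (xs : List (Fin n → Bool)) : ℝ :=
  Psi (Wn n w T) (Vn m w T xs) (label m xs (A.mem (xs.map f0)))

/-- The patterns in the stored queries and the last one. -/
noncomputable def Lab (A : Alg n a k) (m : ℕ) (ys : List (Fin n → Bool)) : Fin n → Finset ℕ :=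
  label m ys (insert (ys.length - 1) (A.mem (ys.dropLast.map f0)))

lemma Lab_snoc (A : Alg n a k) (m : ℕ) (xs : List (Fin n → Bool)) (y : Fin n → Bool) :
    Lab A m (xs ++ [y]) = label m (xs ++ [y]) (insert xs.length (A.mem (xs.map f0))) := by
  simp [Lab]

lemma phi_le (A : Alg n a k) {m w T : ℕ} (hm : w + T ≤ m) (xs : List (Fin n → Bool))
    (y : Fin n → Bool) :
    Phi A m w T (xs ++ [y]) ≤ Psi (Wn n w T) (Vn m w T xs) (Lab A m (xs ++ [y])) := by
  rw [← psi_remove (V' := Vn m w T (xs ++ [y]))]
  · refine psi_refine subset_union_left _ _ fun p _ q _ h => ?_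
    rw [Lab_snoc, label_eq_iff] at h
    rw [label_eq_iff]
    intro s hs
    apply h s
    have := A.mem_step (xs.map f0) (f0 y)
    simp only [List.map_append, List.map_cons, List.map_nil] at hs
    simpa using this hs
  · refine union_subset_union_right fun j hj => ?_
    simp only [mem_filter] at hj ⊢
    exact ⟨hj.1, fun y hy => hj.2 y (by simp [hy])⟩
  · intro p hp b hb h
    rw [Lab_snoc, label_eq_iff] at h
    have h1 := h xs.length (by simp) y (by simp)
    rcases mem_union.1 hp with hp | hp
    · exact mem_union_left _ hp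
    refine mem_union_right _ ?_
    simp only [mem_filter, Wn, Fn, mem_univ, true_and] at hp hb ⊢
    refine ⟨hp.1, fun l hl hc => ?_⟩
    rcases List.mem_append.1 hl with hl | hl
    · exact hp.2 l hl hc
    · rw [List.mem_singleton.1 hl] at hc ⊢
      have h2 := f0_true hc b hb.2
      have h3 : ¬m ≤ b.val := by omega
      simpa [tb, h2, h3, hp.1] using h1

/-- The expectation over one step. -/
noncomputable def E1 (A : Alg n a k) (xs : List (Fin n → Bool)) : ((Fin n → Bool) → ℝ) →ₗ[ℝ] ℝ :=
  ∑ y, step A f0 xs y • LinearMap.proj y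

lemma E1_apply (A : Alg n a k) (xs : List (Fin n → Bool)) (φ : (Fin n → Bool) → ℝ) :
    E1 A xs φ = ∑ y, step A f0 xs y * φ y := by
  simp [E1, LinearMap.sum_apply]

lemma phi_step (A : Alg n a k) {m w T : ℕ} (hm : w + T ≤ m) (xs : List (Fin n → Bool)) :
    ∑ y, step A f0 xs y * Phi A m w T (xs ++ [y]) ≤ Phi A m w T xs + 2 * 2 ^ k := by
  have h := exch (E1 A xs)
    (fun φ ψ h => by
      rw [E1_apply, E1_apply]
      exact sum_le_sum fun y _ => mul_le_mul_of_nonneg_left (h y) (step_nonneg _ _ _ _))
    (fun c => by rw [E1_apply, ← sum_mul, step_sum, one_mul])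
    (fun y p => tb m y p) (label m xs (A.mem (xs.map f0))) (W := Wn n w T) (V := Vn m w T xs)
    subset_union_left 2
    (fun y => by exact_mod_cast (card_le_univ _).trans (by simp))
    (fun p _ q _ hpq g => by
      rw [E1_apply, E1_apply, ← Equiv.sum_comp (ts_invol m p q).toPerm
        (fun y => step A f0 xs y * g fun p => tb m y p)]
      refine sum_congr rfl fun y _ => ?_
      rw [label_eq_iff] at hpq
      have := step_fix A f0 _ _ xs y fun s hs l hl => ts_fix (hpq s hs l hl)
      simp only [Function.Involutive.coe_toPerm, tb_ts]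
      exact congrArg₂ _ this.symm rfl)
  rw [E1_apply] at h
  have h2 := label_card m xs (A.mem_card (xs.map f0)) (Wn n w T)
  refine le_trans (sum_le_sum fun y _ => mul_le_mul_of_nonneg_left ((phi_le A hm xs y).trans
    (psi_refine subset_union_left _ _ fun p _ q _ hpq => ?_)) (step_nonneg _ _ _ _))
    (h.trans (by unfold Phi; linarith))
  rw [Prod.mk.injEq, label_eq_iff] at hpq
  rw [Lab_snoc, label_eq_iff]
  intro s hs l hl
  rcases mem_insert.1 hs with rfl | hs
  · have : y = l := by simpa using hl
    rw [← this]; exact hpq.2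
  · have := A.mem_lt _ _ hs
    rw [List.length_map] at this
    rw [List.getElem?_append_left this] at hl
    exact hpq.1 s hs l hl

/-- The history up to the first query of level `≥ i`. -/
def cut (i : ℕ) : List (Fin n → Bool) → List (Fin n → Bool)
  | [] => []
  | y :: ys => if i ≤ f0 y then [y] else y :: cut i ys

lemma cut_frozen {i : ℕ} (zs : List (Fin n → Bool)) :
    ∀ {xs : List (Fin n → Bool)}, hit i xs → cut i (xs ++ zs) = cut i xs
  | [], h => (hit_nil _ h).elim
  | y :: ys, h => by
    simp only [List.cons_append, cut]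
    split_ifs with hy
    · rfl
    · rw [cut_frozen zs (((hit_cons _ _ _).1 h).resolve_left hy)]

lemma cut_not {i : ℕ} : ∀ {xs : List (Fin n → Bool)}, ¬hit i xs → cut i xs = xs
  | [], _ => rfl
  | y :: ys, h => by
    rw [hit_cons, not_or] at h
    rw [cut, if_neg h.1, cut_not h.2]

lemma cut_snoc {i : ℕ} (y : Fin n → Bool) :
    ∀ {xs : List (Fin n → Bool)}, ¬hit i xs → cut i (xs ++ [y]) = xs ++ [y]
  | [], _ => by simp [cut]
  | l :: ys, h => by
    rw [hit_cons, not_or] at h
    rw [List.cons_append, cut, if_neg h.1, cut_snoc y h.2]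

lemma cut_low {i : ℕ} : ∀ (xs : List (Fin n → Bool)), ∀ l ∈ (cut i xs).dropLast, f0 l < i
  | [], l, h => by simp [cut] at h
  | y :: ys, l, h => by
    rw [cut] at h
    split_ifs at h with hy
    · simp at h
    · by_cases he : cut i ys = []
      · simp [he] at h
      · rw [List.dropLast_cons_of_ne_nil he] at h
        rcases List.mem_cons.1 h with h | h
        · rw [h]; omega
        · exact cut_low ys l h

lemma cut_map {i : ℕ} {τ : (Fin n → Bool) → Fin n → Bool} (h : ∀ l, i ≤ f0 (τ l) ↔ i ≤ f0 l) :
    ∀ xs : List (Fin n → Bool), cut i (xs.map τ) = (cut i xs).map τ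
  | [] => rfl
  | y :: ys => by
    simp only [List.map_cons, cut, h]
    split_ifs
    · rfl
    · rw [cut_map h ys, List.map_cons]

lemma unc_of_cut {c i : ℕ} {j : Fin n} : ∀ {xs : List (Fin n → Bool)}, hit i xs →
    (∀ y ∈ cut i xs, c ≤ f0 y → y j = false) → unc c i j xs
  | [], h, _ => hit_nil _ h
  | y :: ys, h, h' => by
    rw [cut] at h'
    split_ifs at h' with hy
    · exact ⟨h' y (by simp), Or.inl hy⟩
    · exact ⟨h' y (by simp), Or.inr (unc_of_cut (((hit_cons _ _ _).1 h).resolve_left hy)
        fun l hl => h' l (by simp [hl]))⟩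

/-- The potential when the window is entered. -/
noncomputable def Ini (A : Alg n a k) (m w T : ℕ) (xs : List (Fin n → Bool)) : ℝ :=
  Psi (Wn n w T) (Wn n w T ∪ Fn n m) (Lab A m (cut w xs))

lemma ini_le (A : Alg n a k) {m w T : ℕ} (hm : w + T ≤ m) (N : ℕ) :
    Ex (step A f0) N [] (Ini A m w T) ≤ (Wn n w T).card *
      Real.log ((Wn n w T).card / (Wn n w T ∪ Fn n m).card) + 2 * 2 ^ k := by
  have hlow : ∀ p ∈ Wn n w T ∪ Fn n m, w ≤ p.val := by
    intro p hp
    simp only [Wn, Fn, mem_union, mem_filter, mem_univ, true_and] at hp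
    omega
  have h := exch (Ex (step A f0) N []) (Ex_mono (step_nonneg A f0) N [])
    (Ex_const (step_sum A f0) N []) (fun xs => Lab A m (cut w xs)) (fun _ => ())
    (W := Wn n w T) (V := Wn n w T ∪ Fn n m) subset_union_left (2 ^ (k + 1))
    (fun xs => label_card m _ ((card_insert_le _ _).trans (Nat.succ_le_succ (A.mem_card _))) _)
    (fun p hp q hq _ g => by
      have hl := ts_low (m := m) (hlow p hp) (hlow q hq)
      rw [← couple A N _ _ (ts_invol m p q) (fun xs => g (Lab A m (cut w xs)))]
      · congr 1
        funext xs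
        congr 1
        change _ = Lab A m (cut w (xs.map (ts m p q)))
        rw [cut_map fun l => le_f0_congr (hl l)]
        unfold Lab
        rw [label_map, List.length_map, ← List.map_dropLast, List.map_map]
        congr 4
        exact List.map_congr_left fun l h => (f0_congr (hl l) (cut_low xs l h)).symm
      · rintro ls ⟨l, hl', hne⟩ zs
        rw [cut_frozen zs ⟨l, hl', not_lt.1 fun h => hne (f0_congr (hl l) h)⟩])
  rw [psi_unit] at h
  have h1 : (((Wn n w T).image fun _ => ()).card : ℝ) ≤ 1 := by
    exact_mod_cast (card_le_univ _).trans (by simp)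
  have h2 := Ex_mono (step_nonneg A f0) N [] (Ini A m w T) _ fun xs =>
    psi_refine (W := Wn n w T) (V := Wn n w T ∪ Fn n m) subset_union_left (Lab A m (cut w xs))
      (fun p => ((), Lab A m (cut w xs) p)) fun p _ q _ h => (Prod.mk.inj h).2
  have h3 : (0 : ℝ) < 2 ^ k := by positivity
  rw [pow_succ] at h
  nlinarith

/-- The number of queries made after level `w` and before level `e` was reached. -/
noncomputable def steps (w e : ℕ) (xs : List (Fin n → Bool)) : ℝ :=
  ∑ s ∈ range xs.length, ind (hit w (xs.take s) ∧ ¬hit e (xs.take s))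

lemma steps_snoc (w e : ℕ) (xs : List (Fin n → Bool)) (y : Fin n → Bool) :
    steps w e (xs ++ [y]) = steps w e xs + ind (hit w xs ∧ ¬hit e xs) := by
  unfold steps
  rw [List.length_append, List.length_singleton, sum_range_succ, List.take_left']
  · congr 1
    refine sum_congr rfl fun s hs => ?_
    rw [List.take_append_of_le_length (mem_range.1 hs).le]
  · rfl

lemma drift (A : Alg n a k) {m w T e : ℕ} (hm : w + T ≤ m) (he : w ≤ e) (N : ℕ) :
    Ex (step A f0) N [] (fun xs => ind (hit w xs) * (Phi A m w T (cut e xs) - Ini A m w T xs))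
      ≤ 2 * 2 ^ k * Ex (step A f0) N [] (steps w e) := by
  have h := Ex_super (step_nonneg A f0)
    ((fun xs => ind (hit w xs) * (Phi A m w T (cut e xs) - Ini A m w T xs))
      - (2 * 2 ^ k : ℝ) • steps w e) (fun xs => ?_) N []
  · rw [map_sub, map_smul] at h
    simp only [Pi.sub_apply, Pi.smul_apply, smul_eq_mul, ind, steps, hit_nil, if_false] at h
    simp only [ind]
    simpa using h
  simp only [Pi.sub_apply, Pi.smul_apply, smul_eq_mul, steps_snoc]
  have hc : ∀ c : ℝ, ∑ y, step A f0 xs y * c = c := fun c => by rw [← sum_mul, step_sum, one_mul]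
  by_cases h1 : hit w xs
  · have hI : ∀ y, Ini A m w T (xs ++ [y]) = Ini A m w T xs := fun y => by
      unfold Ini; rw [cut_frozen _ h1]
    by_cases h2 : hit e xs
    · simp only [hI, cut_frozen _ h2, ind, hit_append, h1, h2, true_or, not_true, and_false,
        if_true, if_false, add_zero, hc, le_refl]
    · simp only [hI, cut_snoc _ h2, cut_not h2, ind, hit_append, h1, h2, true_or, not_false_iff,
        and_true, if_true, one_mul, mul_sub, sum_sub_distrib, hc]
      linarith [phi_step A hm xs]
  · have h2 : ¬hit e xs := fun h => h1 (hit_mono he h)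
    rw [← hc (_ - _)]
    refine sum_le_sum fun y _ => mul_le_mul_of_nonneg_left ?_ (step_nonneg _ _ _ _)
    have h3 := phi_le A hm xs y
    have h4 : Vn m w T xs = Wn n w T ∪ Fn n m := by
      unfold Vn
      rw [filter_true_of_mem fun j _ l hl hc => (h1 ⟨l, hl, by omega⟩).elim]
    rw [h4] at h3
    have h5 := mul_nonpos_of_nonneg_of_nonpos (ind_nonneg (hit w (xs ++ [y]))) (sub_nonpos.2 h3)
    unfold Ini
    rw [cut_snoc _ h2, cut_snoc _ h1]
    simp only [ind, h1, false_and, if_false] at h5 ⊢
    linarith

end Pool.Agent.P.MP_5c258a_lc
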